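import Pool.Agent.Helper63.TH.Goals

/-!
# CVX: the moments are convex functions of the angle
-/

set_option autoImplicit false

namespace Pool.Agent.Helper69.TH

open MeasureTheory Set Filter Topology
open Pool.Agent.Helper53.PT Pool.Agent.Helper63.TH

theorem cvx_A {b c : ℝ} (hb : 0 < b) (hbc : b ≤ c) :
    ConvexOn ℝ (Ioc (0 : ℝ) (1 / 2)) (fun θ => Real.log (c + θ) - Real.log (b + θ)) := by
  have hc : 0 < c := hb.trans_le hbc
  have hd : ∀ θ ∈ Ioo (0 : ℝ) (1 / 2), HasDerivAt (fun θ => Real.log (c + θ) - Real.log (b + θ))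
      ((c + θ)⁻¹ - (b + θ)⁻¹) θ := by
    intro θ hθ
    have h1 : HasDerivAt (fun θ : ℝ => Real.log (c + θ)) ((c + θ)⁻¹) θ := by
      have := ((hasDerivAt_id θ).const_add c).log (by have := hθ.1; simp only [id]; linarith)
      simpa using this
    have h2 : HasDerivAt (fun θ : ℝ => Real.log (b + θ)) ((b + θ)⁻¹) θ := by
      have := ((hasDerivAt_id θ).const_add b).log (by have := hθ.1; simp only [id]; linarith)
      simpa using this
    exact h1.sub h2
  refine MonotoneOn.convexOn_of_deriv (convex_Ioc 0 (1 / 2)) ?_ ?_ ?_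
  · refine ContinuousOn.sub ?_ ?_
    · exact ContinuousOn.log (by fun_prop) fun x hx => by have := hx.1; linarith
    · exact ContinuousOn.log (by fun_prop) fun x hx => by have := hx.1; linarith
  · rw [interior_Ioc]
    exact fun θ hθ => (hd θ hθ).differentiableAt.differentiableWithinAt
  · rw [interior_Ioc]
    intro x hx y hy hxy
    rw [(hd x hx).deriv, (hd y hy).deriv]
    have e : ∀ t : ℝ, 0 < t → (c + t)⁻¹ - (b + t)⁻¹ = -((c - b) / ((c + t) * (b + t))) := by
      intro t ht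
      have h1 : c + t ≠ 0 := by linarith
      have h2 : b + t ≠ 0 := by linarith
      field_simp
      ring
    rw [e x hx.1, e y hy.1, neg_le_neg_iff]
    have hx1 := hx.1
    apply div_le_div_of_nonneg_left (by linarith) (by positivity)
    exact mul_le_mul (by linarith) (by linarith) (by linarith) (by linarith [hy.1])

theorem cvx_B {c : ℝ} (hc : 1 ≤ c) :
    ConvexOn ℝ (Ioc (0 : ℝ) (1 / 2)) (fun θ => Real.log (c + θ) - Real.log (c - θ)) := by
  have hd : ∀ θ ∈ Ioo (0 : ℝ) (1 / 2), HasDerivAt (fun θ => Real.log (c + θ) - Real.log (c - θ))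
      ((c + θ)⁻¹ + (c - θ)⁻¹) θ := by
    intro θ hθ
    have h1 : HasDerivAt (fun θ : ℝ => Real.log (c + θ)) ((c + θ)⁻¹) θ := by
      have := ((hasDerivAt_id θ).const_add c).log (by have := hθ.1; simp only [id]; linarith)
      simpa using this
    have h2 : HasDerivAt (fun θ : ℝ => Real.log (c - θ)) (-(c - θ)⁻¹) θ := by
      have := ((hasDerivAt_id θ).const_sub c).log (by have := hθ.2; simp only [id]; linarith)
      simpa [neg_div] using this
    have h3 := h1.sub h2
    rw [sub_neg_eq_add] at h3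
    exact h3
  refine MonotoneOn.convexOn_of_deriv (convex_Ioc 0 (1 / 2)) ?_ ?_ ?_
  · refine ContinuousOn.sub ?_ ?_
    · exact ContinuousOn.log (by fun_prop) fun x hx => by have := hx.1; linarith
    · exact ContinuousOn.log (by fun_prop) fun x hx => by have := hx.2; linarith
  · rw [interior_Ioc]
    exact fun θ hθ => (hd θ hθ).differentiableAt.differentiableWithinAt
  · rw [interior_Ioc]
    intro x hx y hy hxy
    rw [(hd x hx).deriv, (hd y hy).deriv]
    have e : ∀ t ∈ Ioo (0 : ℝ) (1 / 2), (c + t)⁻¹ + (c - t)⁻¹ = 2 * c / (c ^ 2 - t ^ 2) := by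
      intro t ht
      have ht1 := ht.1
      have ht2 := ht.2
      have h1 : c + t ≠ 0 := by linarith
      have h2 : c - t ≠ 0 := by linarith
      have h3 : c ^ 2 - t ^ 2 ≠ 0 := by
        have : c ^ 2 - t ^ 2 = (c + t) * (c - t) := by ring
        rw [this]
        exact mul_ne_zero h1 h2
      field_simp
      ring
    rw [e x hx, e y hy]
    have hx1 := hx.1
    have hy2 := hy.2
    have hy1 := hy.1
    apply div_le_div_of_nonneg_left (by linarith) (by nlinarith)
    nlinarith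

/-- the summand -/
theorem cvx_C {s c : ℝ} (hs : 0 ≤ s) (hc : 1 ≤ c) :
    ConvexOn ℝ (Ioc (0 : ℝ) (1 / 2))
      (fun θ => -Real.log (c + (1 + 2 * s) * θ) - s * Real.log (c - θ) + (s + 1) * Real.log (c + θ)) := by
  have ha : 0 < 1 + 2 * s := by linarith
  have hc0 : 0 < c := by linarith
  have h1 := cvx_A (b := c / (1 + 2 * s)) (c := c) (by positivity) (by
    rw [div_le_iff₀ ha]
    nlinarith)
  have h2 := (cvx_B hc).smul hs
  have h3 := (h1.add h2).add (convexOn_const (-Real.log (1 + 2 * s)) (convex_Ioc (0 : ℝ) (1 / 2)))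
  refine h3.congr ?_
  intro θ hθ
  have hθ1 := hθ.1
  have e1 : c + (1 + 2 * s) * θ = (1 + 2 * s) * (c / (1 + 2 * s) + θ) := by
    field_simp
  have e2 : Real.log (c + (1 + 2 * s) * θ) = Real.log (1 + 2 * s) + Real.log (c / (1 + 2 * s) + θ) := by
    rw [e1, Real.log_mul ha.ne' (by positivity)]
  simp only [Pi.add_apply, smul_eq_mul]
  rw [e2]
  ring

/-- the logarithm of the moments -/
noncomputable def LG (s θ : ℝ) : ℝ :=
  Real.log (Real.Gamma (1 + (1 + 2 * s) * θ)) + s * Real.log (Real.Gamma (1 - θ)) -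
    (s + 1) * Real.log (Real.Gamma (1 + θ))

theorem cvx_tend {s θ : ℝ} (hs : 0 ≤ s) (h0 : 0 < θ) (h1 : θ ≤ 1 / 2) :
    Tendsto (fun n : ℕ => ∑ m ∈ Finset.range (n + 1),
      (-Real.log ((1 + (m : ℝ)) + (1 + 2 * s) * θ) - s * Real.log ((1 + (m : ℝ)) - θ) +
        (s + 1) * Real.log ((1 + (m : ℝ)) + θ))) atTop (𝓝 (LG s θ)) := by
  have t1 := Real.BohrMollerup.tendsto_log_gamma (x := 1 + (1 + 2 * s) * θ) (by positivity)
  have t2 := Real.BohrMollerup.tendsto_log_gamma (x := 1 - θ) (by linarith)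
  have t3 := Real.BohrMollerup.tendsto_log_gamma (x := 1 + θ) (by linarith)
  have t4 := (t1.add (t2.const_mul s)).sub (t3.const_mul (s + 1))
  refine t4.congr fun n => ?_
  unfold Real.BohrMollerup.logGammaSeq
  rw [Finset.sum_add_distrib, Finset.sum_sub_distrib, Finset.sum_neg_distrib, ← Finset.mul_sum, ← Finset.mul_sum]
  have e1 : ∀ m : ℕ, Real.log ((1 + (m : ℝ)) + (1 + 2 * s) * θ) = Real.log (1 + (1 + 2 * s) * θ + m) := by
    intro m; congr 1; ring
  have e2 : ∀ m : ℕ, Real.log ((1 + (m : ℝ)) - θ) = Real.log (1 - θ + m) := by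
    intro m; congr 1; ring
  have e3 : ∀ m : ℕ, Real.log ((1 + (m : ℝ)) + θ) = Real.log (1 + θ + m) := by
    intro m; congr 1; ring
  simp only [e1, e2, e3]
  ring

theorem cvx_LG {s : ℝ} (hs : 0 ≤ s) : ConvexOn ℝ (Ioc (0 : ℝ) (1 / 2)) (LG s) := by
  refine ⟨convex_Ioc _ _, ?_⟩
  intro x hx y hy a b ha hb hab
  have hz := convex_Ioc (0 : ℝ) (1 / 2) hx hy ha hb hab
  have tz := cvx_tend hs hz.1 hz.2
  have tx := (cvx_tend hs hx.1 hx.2).const_mul a
  have ty := (cvx_tend hs hy.1 hy.2).const_mul b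
  simp only [smul_eq_mul] at tz ⊢
  refine le_of_tendsto_of_tendsto' tz (tx.add ty) fun n => ?_
  rw [Finset.mul_sum, Finset.mul_sum, ← Finset.sum_add_distrib]
  refine Finset.sum_le_sum fun m _ => ?_
  have h := (cvx_C (c := 1 + (m : ℝ)) hs (by have : (0 : ℝ) ≤ m := Nat.cast_nonneg m; linarith)).2 hx hy ha hb hab
  simpa only [smul_eq_mul] using h

theorem cvx_exp {s : ℝ} (hs : 0 ≤ s) : ConvexOn ℝ (Ioc (0 : ℝ) (1 / 2)) (fun θ => Real.exp (LG s θ)) := by
  refine ⟨convex_Ioc _ _, ?_⟩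
  intro x hx y hy a b ha hb hab
  have h1 := (cvx_LG hs).2 hx hy ha hb hab
  have h2 := convexOn_exp.2 (mem_univ (LG s x)) (mem_univ (LG s y)) ha hb hab
  exact (Real.exp_le_exp.mpr h1).trans h2

theorem gCVX : GCVX := by
  refine ⟨fun j hj _ => ?_, ?_⟩
  · have hj' : (2 : ℝ) ≤ j := by exact_mod_cast hj
    refine (cvx_exp (s := (j : ℝ) - 1) (by linarith)).congr ?_
    intro θ hθ
    have h0 := hθ.1
    have h1 := hθ.2
    have e1 : 0 < Real.Gamma (1 - θ) := Real.Gamma_pos_of_pos (by linarith)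
    have e2 : 0 < Real.Gamma (1 + θ) := Real.Gamma_pos_of_pos (by linarith)
    have e3 : 0 < Real.Gamma (1 + (2 * (j : ℝ) - 1) * θ) := Real.Gamma_pos_of_pos (by nlinarith)
    have hpos : 0 < mo θ j := by
      unfold mo
      positivity
    have h2 : Real.log (mo θ j) = LG ((j : ℝ) - 1) θ := by
      unfold mo LG
      rw [Real.log_mul (by positivity) (by positivity), Real.log_div e3.ne' e1.ne', Real.log_pow,
        Real.log_div e1.ne' e2.ne']
      have e4 : (1 : ℝ) + (1 + 2 * ((j : ℝ) - 1)) * θ = 1 + (2 * (j : ℝ) - 1) * θ := by ring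
      rw [e4]
      ring
    show Real.exp (LG ((j : ℝ) - 1) θ) = mo θ j
    rw [← h2, Real.exp_log hpos]
  · refine (cvx_exp (s := 1 / 2) (by norm_num)).congr ?_
    intro θ hθ
    have h0 := hθ.1
    have h1 := hθ.2
    have e1 : 0 < Real.Gamma (1 - θ) := Real.Gamma_pos_of_pos (by linarith)
    have e2 : 0 < Real.Gamma (1 + θ) := Real.Gamma_pos_of_pos (by linarith)
    have e3 : 0 < Real.Gamma (1 + 2 * θ) := Real.Gamma_pos_of_pos (by linarith)
    have hpos : 0 < m3 θ := by
      unfold m3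
      positivity
    have h2 : Real.log (m3 θ) = LG (1 / 2) θ := by
      unfold m3 LG
      rw [Real.log_mul (by positivity) (by positivity), Real.log_div e3.ne' e1.ne',
        Real.log_rpow (by positivity), Real.log_div e1.ne' e2.ne']
      have e4 : (1 : ℝ) + (1 + 2 * (1 / 2)) * θ = 1 + 2 * θ := by ring
      rw [e4]
      ring
    show Real.exp (LG (1 / 2) θ) = m3 θ
    rw [← h2, Real.exp_log hpos]

end Pool.Agent.Helper69.TH
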